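import Pool.Agent.X139.KT.Fin

/-!
# The rescaled threshold is at least one when r = 2 (MP_d47e08_pr)
-/

set_option autoImplicit false

open MeasureTheory ProbabilityTheory Filter Topology

namespace Pool.Agent.Results.MP_d47e08_pr.ThresholdForMatrices

/-- The top eigenvalue of the Kikuchi matrix with entries `lam + Z (I Δ J)` (for `|I Δ J| = r`,
zero otherwise) on the `l`-subsets of `Fin n`. -/
noncomputable def topEig (r l n : ℕ) (lam : ℝ) (Z : Finset (Fin n) → ℝ) : ℝ :=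
  sSup {t : ℝ | ∃ v : {K : Finset (Fin n) // K.card = l} → ℝ,
    dotProduct v v = 1 ∧
    t = dotProduct v (Matrix.mulVec
      (Matrix.of fun I J : {K : Finset (Fin n) // K.card = l} =>
        if (symmDiff I.1 J.1).card = r then lam + Z (symmDiff I.1 J.1) else 0) v)}

/-- The expected top eigenvalue, `Z` standard Gaussian. -/
noncomputable def meanTop (r l n : ℕ) (lam : ℝ) : ℝ :=
  ∫ Z : Finset (Fin n) → ℝ, topEig r l n lam Z ∂(Measure.pi fun _ => gaussianReal 0 1)

/-- `ρ_{r,l}(μ) > 1`. -/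
def Separates (r l : ℕ) (μ : ℝ) : Prop :=
  ∃ ε : ℝ, 0 < ε ∧ ∀ᶠ n : ℕ in atTop,
    1 + ε ≤ meanTop r l n (μ * (n : ℝ) ^ (-(r : ℝ) / 4)) / meanTop r l n 0

/-- The rescaled spectral threshold. -/
noncomputable def threshold (r l : ℕ) : EReal :=
  sInf {m : EReal | ∃ μ : ℝ, 0 ≤ μ ∧ Separates r l μ ∧ m = (μ : EReal)}

theorem topEig_eq (l n : ℕ) (lam : ℝ) (Z : Finset (Fin n) → ℝ) :
    topEig 2 l n lam Z = Pool.Agent.X139.KT.T n l (fun S => lam + Z S) := by
  unfold topEig Pool.Agent.X139.KT.T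
  congr 1
  ext t
  have e1 : ∀ v : {K : Finset (Fin n) // K.card = l} → ℝ, dotProduct v v = ∑ I, v I ^ 2 := by
    intro v
    unfold dotProduct
    exact Finset.sum_congr rfl fun I _ => by ring
  have e2 : ∀ v : {K : Finset (Fin n) // K.card = l} → ℝ,
      dotProduct v (Matrix.mulVec
        (Matrix.of fun I J : {K : Finset (Fin n) // K.card = l} =>
          if (symmDiff I.1 J.1).card = 2 then lam + Z (symmDiff I.1 J.1) else 0) v) =
      Pool.Agent.X139.KT.qf (fun S => lam + Z S) v := by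
    intro v
    unfold Pool.Agent.X139.KT.qf dotProduct Matrix.mulVec dotProduct
    refine Finset.sum_congr rfl fun I _ => ?_
    rw [Finset.mul_sum]
    refine Finset.sum_congr rfl fun J _ => ?_
    simp only [Matrix.of_apply]
    split_ifs
    · ring
    · ring
  simp only [Set.mem_setOf_eq, e1, e2]

theorem ratio_lt (l : ℕ) (hl : 0 < l) (μ : ℝ) (h0 : 0 ≤ μ) (h1 : μ < 1) (ε : ℝ) (hε : 0 < ε) :
    ∀ᶠ n : ℕ in atTop,
      meanTop 2 l n (μ * (n : ℝ) ^ (-(2 : ℝ) / 4)) / meanTop 2 l n 0 < 1 + ε := by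
  rcases h0.eq_or_lt with rfl | h0
  · refine Eventually.of_forall fun n => ?_
    rw [zero_mul]
    have := div_self_le_one (meanTop 2 l n 0)
    linarith
  · filter_upwards [Pool.Agent.X139.KT.ratio_bound μ h0 h1 l hl ε hε] with n hn
    unfold meanTop
    simp only [topEig_eq, zero_add]
    exact hn

/-- For `r = 2` and every `l ≥ 1` the rescaled threshold is at least `1`: the expected top eigenvalue
with a spike of strength `μ n^(-1/2)`, `μ < 1`, is asymptotically at most that without a spike. In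
particular the thresholds do not tend to `0` as `l → ∞`. -/
theorem result :
    (∀ l : ℕ, 1 ≤ l → ∀ μ : ℝ, 0 ≤ μ → μ < 1 → ∀ ε : ℝ, 0 < ε → ∀ᶠ n : ℕ in atTop,
      meanTop 2 l n (μ * (n : ℝ) ^ (-(2 : ℝ) / 4)) / meanTop 2 l n 0 < 1 + ε) ∧
    (∀ l : ℕ, 1 ≤ l → 1 ≤ threshold 2 l) ∧
    ¬ Tendsto (fun l : ℕ => threshold 2 l) atTop (𝓝 0) := by
  have h2 : ∀ l : ℕ, 1 ≤ l → 1 ≤ threshold 2 l := by
    intro l hl
    refine le_sInf ?_
    rintro m ⟨μ, h0, ⟨ε, hε, hn⟩, rfl⟩
    by_contra hlt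
    have hlt' : μ < 1 := by
      rw [not_le] at hlt
      exact_mod_cast hlt
    have e3 : ((2 : ℕ) : ℝ) = (2 : ℝ) := by norm_num
    rw [e3] at hn
    obtain ⟨n, h3, h4⟩ := (hn.and (ratio_lt l hl μ h0 hlt' ε hε)).exists
    exact absurd h3 (not_le.2 h4)
  refine ⟨fun l hl μ h0 h1 ε hε => ratio_lt l hl μ h0 h1 ε hε, h2, fun ht => ?_⟩
  have h3 : ∀ᶠ l : ℕ in atTop, threshold 2 l < 1 :=
    ht.eventually_lt_const (by norm_num : (0 : EReal) < 1)
  obtain ⟨l, h4, h5⟩ := (h3.and (eventually_ge_atTop 1)).exists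
  exact absurd (h2 l h5) (not_le.2 h4)

end Pool.Agent.Results.MP_d47e08_pr.ThresholdForMatrices
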